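import Mathlib
import Pool.Agent.Q86.PermMain

set_option autoImplicit false

namespace Pool.Agent.Results.MP_9bc296_ag.GenericPrimeIff

open Pool.Agent.Q86.Perm

/-- Over every field of characteristic different from `2` and for `2 ≤ t ≤ min m n`, the ideal
generated by the `t × t` permanents of a generic `m × n` matrix is prime if and only if
`t = m = n`. -/
theorem result (k : Type*) [Field k] (h2 : (2 : k) ≠ 0) (m n t : ℕ) (ht : 2 ≤ t) (htm : t ≤ m)
    (htn : t ≤ n) : (permIdeal t (genericMatrix k m n)).IsPrime ↔ t = m ∧ t = n :=
  generic_iff h2 m n t ht htm htn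

end Pool.Agent.Results.MP_9bc296_ag.GenericPrimeIff
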