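import Mathlib
import Pool.Agent.Q86.PermMain

set_option autoImplicit false

namespace Pool.Agent.Results.MP_9bc296_ag.SymmetricPrimeIff

open Pool.Agent.Q86.Perm

/-- Over every field of characteristic different from `2` and for `2 ≤ t ≤ n`, the ideal
generated by the `t × t` permanents of a generic symmetric `n × n` matrix is prime if and only if
`t = n`. -/
theorem result (k : Type*) [Field k] (h2 : (2 : k) ≠ 0) (n t : ℕ) (ht : 2 ≤ t)
    (htn : t ≤ n) : (permIdeal t (symmetricMatrix k n)).IsPrime ↔ t = n :=
  symmetric_iff h2 n t ht htn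

end Pool.Agent.Results.MP_9bc296_ag.SymmetricPrimeIff
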